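import Pool.Agent.Helper6.HQ.M_A1
import Pool.Agent.Helper66.HQ.M_B1
import Pool.Agent.Helper47.HQ.M_B2
import Pool.Agent.Helper22.HQ.M_H1_H2
import Pool.Agent.Helper96.HQ.M_A3
import Pool.Agent.Helper16.HQ.M_A4
import Pool.Agent.Helper81.HQ.M_B
import Pool.Agent.Helper52.HQ.M_CA
import Pool.Agent.Helper89.HQ.M_Fin

/-!
# Project HQ: assembly
-/

set_option autoImplicit false

namespace Pool.Agent.Helper87.HQ

open Set MvPolynomial

theorem trans_of_infinite {σ : Type} (P : Ideal (MvPolynomial σ ℝ)) (f : MvPolynomial σ ℝ)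
    (h : (Img (P : Set (MvPolynomial σ ℝ)) f).Infinite) :
    Transcendental ℝ (Ideal.Quotient.mk P f) := by
  rintro ⟨g, hg, h0⟩
  apply h
  have h1 : Polynomial.aeval f g ∈ P := by
    rw [← Ideal.Quotient.eq_zero_iff_mem]
    have e := Polynomial.aeval_algHom_apply (Ideal.Quotient.mkₐ ℝ P) f g
    have e2 : Ideal.Quotient.mk P (Polynomial.aeval f g) =
        Polynomial.aeval (Ideal.Quotient.mk P f) g := e.symm
    rw [e2]
    exact h0
  refine (g.roots.toFinset : Set ℝ).toFinite.subset ?_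
  rintro t ⟨z, hz, rfl⟩
  rw [Finset.mem_coe, Multiset.mem_toFinset, Polynomial.mem_roots hg, Polynomial.IsRoot.def]
  have h2 := hz _ h1
  have h3 : eval z (Polynomial.aeval f g) = Polynomial.aeval (eval z f) g := by
    have := Polynomial.aeval_algHom_apply (aeval z : MvPolynomial σ ℝ →ₐ[ℝ] ℝ) f g
    exact this.symm
  rw [h3] at h2
  simpa [Polynomial.aeval_def] using h2

theorem hA : StA := by
  intro hA1 hA3 hA4 σ _ S f hinf
  obtain ⟨P, hP, hSP, hcl, hI⟩ := hA1 σ S f hinf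
  haveI := hP
  obtain ⟨n, y, b, c, δ, m, Δ, hy, hδ, hz, hw⟩ := hA3 σ P f (trans_of_infinite P f hI)
  have hex : ∃ z : σ → ℝ, (∀ p ∈ P, eval z p = 0) ∧ eval z δ ≠ 0 := by
    by_contra hcon
    push Not at hcon
    exact hδ (hcl δ hcon)
  obtain ⟨z, hzP, hzδ⟩ := hex
  obtain ⟨h1, h2, h3⟩ := hz z hzP hzδ
  obtain ⟨a, b', hab, ht⟩ := hA4 n m Δ _ _ h1 h2 h3
  refine ⟨a, b', hab, fun t htt => ?_⟩
  obtain ⟨w', e1, e2⟩ := ht t htt
  obtain ⟨z', hz', hf⟩ := hw _ w' e1 e2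
  refine ⟨z', fun p hp => hz' p (hSP p hp), ?_⟩
  rw [hf, Function.update_self]

theorem hPA : PA :=
  hA Pool.Agent.Helper6.HQ.hA1
    (Pool.Agent.Helper96.HQ.hA3 Pool.Agent.Helper66.HQ.hB1 Pool.Agent.Helper47.HQ.hB2
      Pool.Agent.Helper22.HQ.hH1 Pool.Agent.Helper22.HQ.hH2)
    Pool.Agent.Helper16.HQ.hA4

theorem final : Final :=
  Pool.Agent.Helper89.HQ.hFin (Pool.Agent.Helper52.HQ.hCA (Pool.Agent.Helper81.HQ.hB hPA))

end Pool.Agent.Helper87.HQ
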