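import Mathlib

/-!
# Project HQ (MP_1debac_an, Q2): metric graphs, delta-conditions, hot spots

The definitions are those of `Pool/Agent/Results/MP_1debac_an/HotSpots.lean`.
-/

set_option autoImplicit false

namespace Pool.Agent.Helper87.HQ

open Set Real Filter Topology

/-- A compact metric graph: finitely many vertices and edges, the edge `e` being a copy of
`[0, len e]` whose end `0` is the vertex `src e` and whose end `len e` is the vertex `tgt e`
(loops and multiple edges are allowed). -/
structure MetricGraph where
  V : Type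
  E : Type
  [finV : Fintype V]
  [finE : Fintype E]
  [decV : DecidableEq V]
  src : E → V
  tgt : E → V
  len : E → ℝ
  len_pos : ∀ e, 0 < len e

attribute [instance] MetricGraph.finV MetricGraph.finE MetricGraph.decV

namespace MetricGraph

variable (G : MetricGraph)

/-- The graph is connected (and nonempty). -/
def Connected : Prop :=
  Nonempty G.V ∧ ∀ v w : G.V, Relation.EqvGen (fun a b => ∃ e, G.src e = a ∧ G.tgt e = b) v w

/-- The points of the metric graph: its vertices and the interior points of its edges. -/
abbrev Pt : Type := G.V ⊕ (Σ e : G.E, Ioo (0 : ℝ) (G.len e))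

open Classical in
/-- The restriction of a function on the graph to the closed edge `e`, as a function of the
coordinate `x` in `[0, len e]`. -/
noncomputable def onEdge (F : G.Pt → ℝ) (e : G.E) (x : ℝ) : ℝ :=
  if h : x ∈ Ioo (0 : ℝ) (G.len e) then F (Sum.inr ⟨e, ⟨x, h⟩⟩)
    else if x ≤ 0 then F (Sum.inl (G.src e)) else F (Sum.inl (G.tgt e))

/-- `F` (with edgewise derivative `D`) satisfies `-F'' = μ F` on every closed edge, and at every
vertex `v` the sum of the derivatives taken into the edges equals `α v * F v`.  The continuity of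
`F` on the graph is part of this, since each restriction to a closed edge is differentiable. -/
def IsSolution (α : G.V → ℝ) (μ : ℝ) (F : G.Pt → ℝ) (D : G.E → ℝ → ℝ) : Prop :=
  (∀ e, ∀ x ∈ Icc (0 : ℝ) (G.len e),
    HasDerivWithinAt (G.onEdge F e) (D e x) (Icc (0 : ℝ) (G.len e)) x ∧
    HasDerivWithinAt (D e) (-μ * G.onEdge F e x) (Icc (0 : ℝ) (G.len e)) x) ∧
  ∀ v, ∑ e, ((if G.src e = v then D e 0 else 0) + (if G.tgt e = v then -D e (G.len e) else 0)) =
    α v * F (Sum.inl v)

lemma onEdge_add (F F' : G.Pt → ℝ) (e : G.E) (x : ℝ) :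
    G.onEdge (F + F') e x = G.onEdge F e x + G.onEdge F' e x := by
  unfold onEdge; split_ifs <;> rfl

lemma onEdge_smul (c : ℝ) (F : G.Pt → ℝ) (e : G.E) (x : ℝ) :
    G.onEdge (c • F) e x = c * G.onEdge F e x := by
  unfold onEdge; split_ifs <;> rfl

/-- The space of real solutions for the parameter `μ`: the eigenspace of `μ` (zero if `μ` is not
an eigenvalue). -/
def eigenspace (α : G.V → ℝ) (μ : ℝ) : Submodule ℝ (G.Pt → ℝ) where
  carrier := {F | ∃ D, G.IsSolution α μ F D}
  add_mem' := by
    rintro F F' ⟨D, h1, h2⟩ ⟨D', h1', h2'⟩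
    refine ⟨fun e x => D e x + D' e x, ?_, ?_⟩
    · intro e x hx
      have e1 : G.onEdge (F + F') e = fun x => G.onEdge F e x + G.onEdge F' e x :=
        funext (G.onEdge_add F F' e)
      constructor
      · rw [e1]
        exact (h1 e x hx).1.add (h1' e x hx).1
      · rw [G.onEdge_add, mul_add]
        exact (h1 e x hx).2.add (h1' e x hx).2
    · intro v
      have := congrArg₂ (· + ·) (h2 v) (h2' v)
      simp only [← Finset.sum_add_distrib] at this
      rw [Pi.add_apply, mul_add, ← this]
      apply Finset.sum_congr rfl
      intro e _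
      split_ifs <;> ring
  zero_mem' := by
    refine ⟨fun _ _ => 0, ?_, ?_⟩
    · intro e x _
      have e1 : G.onEdge (0 : G.Pt → ℝ) e = fun _ => 0 := by
        funext x; unfold onEdge; split_ifs <;> rfl
      rw [e1]
      constructor
      · exact hasDerivWithinAt_const _ _ _
      · simpa using hasDerivWithinAt_const (x := x) (s := Icc (0 : ℝ) (G.len e)) (c := (0 : ℝ))
    · intro v
      simp
  smul_mem' := by
    rintro c F ⟨D, h1, h2⟩
    refine ⟨fun e x => c * D e x, ?_, ?_⟩
    · intro e x hx
      have e1 : G.onEdge (c • F) e = fun x => c * G.onEdge F e x :=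
        funext (G.onEdge_smul c F e)
      constructor
      · rw [e1]
        exact (h1 e x hx).1.const_mul c
      · rw [G.onEdge_smul, mul_left_comm]
        exact (h1 e x hx).2.const_mul c
    · intro v
      have := congrArg (c * ·) (h2 v)
      simp only [Finset.mul_sum] at this
      rw [Pi.smul_apply, smul_eq_mul, mul_left_comm, ← this]
      apply Finset.sum_congr rfl
      intro e _
      split_ifs <;> ring

/-- `μ` is the second eigenvalue, eigenvalues being counted with multiplicity: the eigenspaces of
the numbers below `μ` span a space of dimension less than two, those of the numbers up to `μ` span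
a space of dimension at least two. -/
def IsSecond (α : G.V → ℝ) (μ : ℝ) : Prop :=
  Module.rank ℝ (⨆ ν ∈ Iio μ, G.eigenspace α ν : Submodule ℝ (G.Pt → ℝ)) < 2 ∧
  2 ≤ Module.rank ℝ (⨆ ν ∈ Iic μ, G.eigenspace α ν : Submodule ℝ (G.Pt → ℝ))

/-- The set `M`: the points at which some nonzero eigenfunction of the second eigenvalue attains
its global maximum or its global minimum. -/
def hotSpots (α : G.V → ℝ) : Set G.Pt :=
  {p | ∃ μ, G.IsSecond α μ ∧ ∃ F ∈ G.eigenspace α μ, F ≠ 0 ∧
    ((∀ y, F y ≤ F p) ∨ (∀ y, F p ≤ F y))}

end MetricGraph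


end Pool.Agent.Helper87.HQ
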