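import Pool.Agent.Helper87.HQ.Defs

/-!
# Project HQ (MP_1debac_an, Q2, negative answer): statements

For every compact connected metric graph and all strengths the set `M` of hot spots is finite or contains a segment of an edge (so it is uncountable).

Part A: a polynomial which takes infinitely many values on a real zero set takes all values of some interval. Part B: the same for sets given by polynomial equations and
inequalities. Part C: hot spots. RULES for all modules: file `Pool/Agent/<You>/HQ/M_<Name>.lean`, `import Pool.Agent.Helper87.HQ.St`, `set_option autoImplicit false`, `namespace Pool.Agent.<You>.HQ`,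
`open Pool.Agent.Helper87.HQ`, theorem `h<Name> : St<Name>`; hypotheses of a statement are other statements (never wait for them).
-/

set_option autoImplicit false

namespace Pool.Agent.Helper87.HQ

open Set MvPolynomial

/-! ## Part A -/

/-- The values of `f` on the real zero set of `S`. -/
def Img {σ : Type} (S : Set (MvPolynomial σ ℝ)) (f : MvPolynomial σ ℝ) : Set ℝ :=
  {t | ∃ z : σ → ℝ, (∀ p ∈ S, eval z p = 0) ∧ eval z f = t}

/-- The set contains an open interval. -/
def HasInt (X : Set ℝ) : Prop := ∃ a b : ℝ, a < b ∧ Ioo a b ⊆ X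

/-- A1: reduction to a prime ideal which is the vanishing ideal of its real zero set. Proof. Call an ideal `I` closed if every `g` vanishing on the real zero set `V(I)` is in `I`. Consider the set of all closed
ideals `I` with `S ⊆ I` and `Img I f` infinite. It contains the ideal of all polynomials vanishing on `V(S)` (same zero set as `S`). `MvPolynomial σ ℝ` is noetherian, so there is a maximal such `I`
(`set_has_maximal_iff_noetherian` or well-foundedness of `>`). `I ≠ ⊤` as `V(I)` is not empty. If `a * b ∈ I` then `V(I)` is the union of the zero sets of `I ∪ {a}` and `I ∪ {b}`, so one of them, say the first, has infinite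
`Img`; the ideal `J` of all polynomials vanishing on it is closed, contains `I` and `a`, and `Img J f` is infinite; so `J = I` and `a ∈ I`. -/
def StA1 : Prop := ∀ (σ : Type) [Finite σ] (S : Set (MvPolynomial σ ℝ)) (f : MvPolynomial σ ℝ), (Img S f).Infinite →
  ∃ P : Ideal (MvPolynomial σ ℝ), P.IsPrime ∧ (∀ p ∈ S, p ∈ P) ∧
    (∀ g, (∀ z : σ → ℝ, (∀ p ∈ P, eval z p = 0) → eval z g = 0) → g ∈ P) ∧
    (Img (P : Set (MvPolynomial σ ℝ)) f).Infinite

/-- The value of a polynomial (in one variable, with coefficients polynomials in `n` variables) at `w`, the coefficients being evaluated at `y`. -/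
noncomputable def ev2 {n : ℕ} {K : Type} [Field K] [Algebra ℝ K] (y : Fin n → K) (w : K)
    (g : Polynomial (MvPolynomial (Fin n) ℝ)) : K :=
  g.eval₂ ((aeval y : MvPolynomial (Fin n) ℝ →ₐ[ℝ] K) : MvPolynomial (Fin n) ℝ →+* K) w

/-- B1: a transcendence basis which contains `f`. Proof. `K` is the field of fractions of the algebra generated by `range x`, so it is algebraic over it; apply `exists_isTranscendenceBasis_between` to
`{f} ⊆ {f} ∪ range x` (`f` is transcendental, so `{f}` is algebraically independent). The basis `u` obtained is finite, contains `f` and consists of elements of `Algebra.adjoin ℝ (range x)`; number it so that `f` has number `0`. -/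
def StB1 : Prop := ∀ (σ : Type) [Finite σ] (K : Type) [Field K] [Algebra ℝ K] (x : σ → K) (f : K),
  IntermediateField.adjoin ℝ (range x) = ⊤ → f ∈ Algebra.adjoin ℝ (range x) → Transcendental ℝ f →
  ∃ (n : ℕ) (y : Fin (n + 1) → K), y 0 = f ∧ (∀ i, y i ∈ Algebra.adjoin ℝ (range x)) ∧ IsTranscendenceBasis ℝ y

/-- B2: primitive element with explicit data. Proof. `R = MvPolynomial (Fin n) ℝ` acts on `K` by `aeval y`, which is injective; let `L = FractionRing R` (embedded in `K`, `FractionRing.liftAlgebra`) or `L = ℝ(y) ⊆ K`. `K` is algebraic over `L`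
and generated by the finitely many `x i`, so it is a finite extension, separable (characteristic zero), `K = L(w₀)` (`Field.exists_primitive_element`). Some nonzero multiple `w = r w₀`, `r ∈ R`, is integral over `R`
(`exists_integral_multiple`) and `K = L(w)`. `m = minpoly R w`; as `R` is integrally closed (unique factorisation domain), `minpoly L w` is the image of `m` (`minpoly.isIntegrallyClosed_eq_field_fractions`), it is separable, so the derivative does not vanish at
`w`, and `m ∣ g` if `g(w) = 0` (`minpoly.isIntegrallyClosed_dvd`). Every `x i` is a polynomial in `w` over `L`; multiply by a common denominator `Δ` (`IsLocalization.integerNormalization` or `IsLocalization.exist_integer_multiples_of_finset`). -/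
def StB2 : Prop := ∀ (σ : Type) [Finite σ] (K : Type) [Field K] [Algebra ℝ K] (x : σ → K) (n : ℕ) (y : Fin n → K),
  IntermediateField.adjoin ℝ (range x) = ⊤ → IsTranscendenceBasis ℝ y →
  ∃ (w : K) (m : Polynomial (MvPolynomial (Fin n) ℝ)) (Δ : MvPolynomial (Fin n) ℝ)
    (h : σ → Polynomial (MvPolynomial (Fin n) ℝ)),
    ev2 y w m = 0 ∧ ev2 y w (Polynomial.derivative m) ≠ 0 ∧ aeval y Δ ≠ 0 ∧
    (∀ i, ev2 y w (h i) = aeval y Δ * x i) ∧
    ∀ g : Polynomial (MvPolynomial (Fin n) ℝ), ev2 y w g = 0 → m ∣ g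

/-- H1: clearing the denominator `c`. Proof: by induction on `g` (`Polynomial.induction_on` or `Polynomial.induction_on'`): constants `C r`: `N = 0`, `a = aeval y r`; sums: `N + N'`; `g * X`: `N + 1` and `a * b`. -/
def StH1 : Prop := ∀ (A : Type) [CommRing A] [Algebra ℝ A] (n : ℕ) (y : Fin n → A) (b c : A)
  (g : Polynomial (MvPolynomial (Fin n) ℝ)), ∃ (N : ℕ) (a : A), ∀ (K : Type) [Field K] [Algebra ℝ K] (φ : A →ₐ[ℝ] K),
    φ c ≠ 0 → φ a = φ c ^ N * ev2 (fun i => φ (y i)) (φ b / φ c) g

/-- H2: clearing the denominator `Δ`. Proof: by induction on `p` (`MvPolynomial.induction_on`): constants: `N = 0`; sums: `N + N'`, `q * C (Δ ^ N') + q' * C (Δ ^ N)`; `p * X i`: `N + 1`, `q * h i`. -/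
def StH2 : Prop := ∀ (σ : Type) (n : ℕ) (Δ : MvPolynomial (Fin n) ℝ)
  (h : σ → Polynomial (MvPolynomial (Fin n) ℝ)) (p : MvPolynomial σ ℝ),
  ∃ (N : ℕ) (q : Polynomial (MvPolynomial (Fin n) ℝ)), ∀ (K : Type) [Field K] [Algebra ℝ K]
    (u : Fin n → K) (w : K) (x : σ → K), (∀ i, ev2 u w (h i) = aeval u Δ * x i) →
    ev2 u w q = aeval u Δ ^ N * aeval x p

/-- The content of A3: a real irreducible variety on which `f` is not algebraic is, outside a proper subset, the graph of the simple roots of a polynomial `m(u, w)`, `u 0` being the value of `f`. -/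
def A3 : Prop := ∀ (σ : Type) [Finite σ] (P : Ideal (MvPolynomial σ ℝ)) [P.IsPrime] (f : MvPolynomial σ ℝ),
  Transcendental ℝ (Ideal.Quotient.mk P f) →
  ∃ (n : ℕ) (y : Fin (n + 1) → MvPolynomial σ ℝ) (b c δ : MvPolynomial σ ℝ)
    (m : Polynomial (MvPolynomial (Fin (n + 1)) ℝ)) (Δ : MvPolynomial (Fin (n + 1)) ℝ),
    y 0 = f ∧ δ ∉ P ∧
    (∀ z : σ → ℝ, (∀ p ∈ P, eval z p = 0) → eval z δ ≠ 0 →
      ev2 (fun i => eval z (y i)) (eval z b / eval z c) m = 0 ∧
      ev2 (fun i => eval z (y i)) (eval z b / eval z c) (Polynomial.derivative m) ≠ 0 ∧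
      eval (fun i => eval z (y i)) Δ ≠ 0) ∧
    ∀ (u : Fin (n + 1) → ℝ) (w : ℝ), ev2 u w m = 0 → eval u Δ ≠ 0 →
      ∃ z : σ → ℝ, (∀ p ∈ P, eval z p = 0) ∧ eval z f = u 0

/-- A3. Proof. `B = MvPolynomial σ ℝ ⧸ P` is a domain, `K = FractionRing B`, `x i` the image of `X i`, `ψ : MvPolynomial σ ℝ → K` the canonical map (`ψ = aeval x`, kernel `P`; `range x` generates `K` as a field; `ψ f` is transcendental).
B1 gives `y' : Fin (n+1) → K` with `y' 0 = ψ f`, `y' i = ψ (y i)` (`Algebra.adjoin ℝ (range x)` is the range of `aeval x`; take `y 0 = f`). B2 gives `w`, `m`, `Δ`, `h`. `w = ψ b / ψ c`, `c ∉ P` (`IsFractionRing.div_surjective`). H1 for `m`: `ψ a = ψ c ^ N * m(w) = 0`, so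
`a ∈ P` and `eval z a = 0` for every real zero `z` of `P`; if `eval z c ≠ 0`, H1 for `K = ℝ`, `φ = aeval z`, gives `ev2 (eval z ∘ y) (eval z b / eval z c) m = 0`. H1 for the derivative gives `a'` with `ψ a' ≠ 0`, so `a' ∉ P`. Put `δ = c * a' * aeval y Δ`.
Second property: given `u`, `w'` real, `z i = ev2 u w' (h i) / eval u Δ`. For `p` let `q` be as in H2. If `p ∈ P` then `ev2 y' w q = 0`, so `m ∣ q` and `ev2 u w' q = 0`, so `eval z p = 0`. For `f`: `q - C (Δ ^ N * X 0)` vanishes at `(y', w)`, so at `(u, w')`, so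
`eval z f = u 0`. -/
def StA3 : Prop := StB1 → StB2 → StH1 → StH2 → A3

/-- A4: continuation of a simple root. Proof. `φ (t, w') = ev2 (Function.update u 0 t) w' m` is a continuous function of `(t, w')` (a polynomial), the derivative with respect to `w'` at `(u 0, w)` is not zero, so there are `w₁ < w < w₂`
with `φ (u 0, w₁)` and `φ (u 0, w₂)` of opposite signs. For `t` near `u 0` the signs are the same and `eval (Function.update u 0 t) Δ ≠ 0`; intermediate value theorem. -/
def StA4 : Prop := ∀ (n : ℕ) (m : Polynomial (MvPolynomial (Fin (n + 1)) ℝ)) (Δ : MvPolynomial (Fin (n + 1)) ℝ)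
  (u : Fin (n + 1) → ℝ) (w : ℝ), ev2 u w m = 0 → ev2 u w (Polynomial.derivative m) ≠ 0 → eval u Δ ≠ 0 →
  ∃ a b : ℝ, a < b ∧ ∀ t ∈ Ioo a b, ∃ w' : ℝ, ev2 (Function.update u 0 t) w' m = 0 ∧
    eval (Function.update u 0 t) Δ ≠ 0

/-- The content of part A. -/
def PA : Prop := ∀ (σ : Type) [Finite σ] (S : Set (MvPolynomial σ ℝ)) (f : MvPolynomial σ ℝ),
  (Img S f).Infinite → HasInt (Img S f)

/-- A. Proof. A1 gives `P`. `f` modulo `P` is transcendental: if `g ≠ 0` in `ℝ[X]` and `aeval f g ∈ P`, all values of `f` on the zero set of `P` are roots of `g`, finitely many. A3 gives the data. As `δ ∉ P` and `P` is closed there is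
a real zero `z` of `P` with `eval z δ ≠ 0`. A4 for `u i = eval z (y i)`, `w = eval z b / eval z c`; the last property of A3 shows `Ioo a b ⊆ Img P f ⊆ Img S f`. -/
def StA : Prop := StA1 → A3 → StA4 → PA

/-! ## Part B -/

/-- Sets given by polynomial equations and inequalities. -/
inductive SA {ι : Type} : Set (ι → ℝ) → Prop
  | eq (p : MvPolynomial ι ℝ) : SA {z | eval z p = 0}
  | le (p : MvPolynomial ι ℝ) : SA {z | 0 ≤ eval z p}
  | inter (X Y : Set (ι → ℝ)) : SA X → SA Y → SA (X ∩ Y)
  | union (X Y : Set (ι → ℝ)) : SA X → SA Y → SA (X ∪ Y)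

/-- The content of part B. -/
def PB : Prop := ∀ (ι : Type) [Finite ι] (Z : Set (ι → ℝ)), SA Z → ∀ f : MvPolynomial ι ℝ,
  ((fun z => eval z f) '' Z).Infinite → HasInt ((fun z => eval z f) '' Z)

/-- B. Proof. By induction on `SA Z` there are a finite type `κ` and a set `S` of polynomials in the variables `ι ⊕ κ` such that `Z = {x | ∃ y : κ → ℝ, ∀ p ∈ S, eval (Sum.elim x y) p = 0}`: equation: `κ = Empty`; inequality `0 ≤ p`: `κ = Unit`, `p = y²`;
intersection: `κ ⊕ κ'`, both sets (renamed); union: `κ ⊕ κ'`, all products `p * p'`. So the image of `Z` under `f` is `Img S (rename Sum.inl f)`. -/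
def StB : Prop := PA → PB

/-! ## Part C -/

/-- The coordinates of the interior points of the edge `e` at which some nonzero function of the eigenspace of `μ` attains its maximum. -/
def Hot (G : MetricGraph) (α : G.V → ℝ) (μ : ℝ) (e : G.E) : Set ℝ :=
  {x | ∃ h : x ∈ Ioo (0 : ℝ) (G.len e), ∃ F ∈ G.eigenspace α μ, F ≠ 0 ∧ ∀ y, F y ≤ F (Sum.inr ⟨e, ⟨x, h⟩⟩)}

/-- Coordinates of the eigenspace of `κ²`, `κ > 0`: the function is `A f cos κx + B f sin κx` on the edge `f` and `W v` at the vertex `v`. -/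
def Sol (G : MetricGraph) (α : G.V → ℝ) (κ : ℝ) (A B : G.E → ℝ) (W : G.V → ℝ) : Prop :=
  (∀ f, A f = W (G.src f) ∧
    A f * Real.cos (κ * G.len f) + B f * Real.sin (κ * G.len f) = W (G.tgt f)) ∧
  ∀ v, ∑ f, ((if G.src f = v then κ * B f else 0) + (if G.tgt f = v then
    κ * (A f * Real.sin (κ * G.len f) - B f * Real.cos (κ * G.len f)) else 0)) = α v * W v

/-- The function with these coordinates. -/
noncomputable def fn (G : MetricGraph) (κ : ℝ) (A B : G.E → ℝ) (W : G.V → ℝ) : G.Pt → ℝ
  | Sum.inl v => W v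
  | Sum.inr ⟨f, x⟩ => A f * Real.cos (κ * x) + B f * Real.sin (κ * x)

/-- C2. Proof: as in `HotSpots.lean` (`ode_pos`, there on `[0, 1]`; here on `[0, len f]`): from `f' = g`, `g' = -κ² f` one gets `f x = f 0 cos κx + (g 0 / κ) sin κx`, `g x = -κ (f 0) sin κx + g 0 cos κx` (two combinations have derivative zero). So `B f = D f 0 / κ`,
`A f = F (src f)`; the value at `len f` is `F (tgt f)`. Conversely the function `fn` with `D f x = κ (B f cos κx - A f sin κx)`. -/
def StC2 : Prop := ∀ (G : MetricGraph) (α : G.V → ℝ) (κ : ℝ), 0 < κ → ∀ F : G.Pt → ℝ,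
  F ∈ G.eigenspace α (κ ^ 2) ↔ ∃ A B W, Sol G α κ A B W ∧ F = fn G κ A B W

/-- The condition that `a cos κy + b sin κy ≤ 1` on `[p, q]` (`κ (q - p) < π`). -/
def Cond (κ a b p q : ℝ) : Prop :=
  a * Real.cos (κ * p) + b * Real.sin (κ * p) ≤ 1 ∧ a * Real.cos (κ * q) + b * Real.sin (κ * q) ≤ 1 ∧
  (a ^ 2 + b ^ 2 ≤ 1 ∨ b * Real.cos (κ * p) - a * Real.sin (κ * p) ≤ 0 ∨
    0 ≤ b * Real.cos (κ * q) - a * Real.sin (κ * q))

/-- C3. Proof. `F y = a cos κy + b sin κy`, `F' = κ (b cos κy - a sin κy)`. If `F' (t) = 0` then `F y = F t * cos κ(y - t)` for all `y` and `F(t)² = a² + b²`. Right to left: the case `a² + b² ≤ 1` is Cauchy-Schwarz. Otherwise suppose `F > 1` somewhere; the maximum `t` on `[p, q]` is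
interior, `F t > 1`, `F' t = 0`, so `F' p = κ F(t) sin κ(t - p) > 0` and `F' q = -κ F(t) sin κ(q - t) < 0`, contradiction. Left to right: if `F' p > 0` and `F' q < 0` there is a zero `t` of `F'` in `(p, q)`; `0 < F' p = κ F(t) sin κ(t - p)` gives `F t > 0`, so
`a² + b² = F(t)² ≤ 1`. -/
def StC3 : Prop := ∀ κ a b p q : ℝ, 0 < κ → p < q → κ * (q - p) < Real.pi →
  ((∀ y ∈ Icc p q, a * Real.cos (κ * y) + b * Real.sin (κ * y) ≤ 1) ↔ Cond κ a b p q)

/-- The variables: `s`, `c`, then `A`, `B`, `W`. -/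
abbrev Var (G : MetricGraph) : Type := Bool ⊕ (G.E ⊕ (G.E ⊕ G.V))

/-- The set of all `(s, c, A, B, W)`: `(c, s)` on the quarter circle, `s ≤ r`, `(A e, B e)` is `(c, s)` rotated by `κ p`, and the function is at most `1` everywhere. -/
def Zs (G : MetricGraph) (α : G.V → ℝ) (κ : ℝ) (N : ℕ) (e : G.E) (p r : ℝ) : Set (Var G → ℝ) :=
  {z | 0 ≤ z (Sum.inl false) ∧ z (Sum.inl false) ≤ r ∧ 0 ≤ z (Sum.inl true) ∧
    z (Sum.inl true) ^ 2 + z (Sum.inl false) ^ 2 = 1 ∧
    z (Sum.inr (Sum.inl e)) = z (Sum.inl true) * Real.cos (κ * p) - z (Sum.inl false) * Real.sin (κ * p) ∧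
    z (Sum.inr (Sum.inr (Sum.inl e))) =
      z (Sum.inl true) * Real.sin (κ * p) + z (Sum.inl false) * Real.cos (κ * p) ∧
    Sol G α κ (fun f => z (Sum.inr (Sum.inl f))) (fun f => z (Sum.inr (Sum.inr (Sum.inl f))))
      (fun v => z (Sum.inr (Sum.inr (Sum.inr v)))) ∧
    (∀ v, z (Sum.inr (Sum.inr (Sum.inr v))) ≤ 1) ∧
    ∀ (f : G.E) (j : Fin N), Cond κ (z (Sum.inr (Sum.inl f))) (z (Sum.inr (Sum.inr (Sum.inl f))))
      (((j : ℕ) : ℝ) * G.len f / N) ((((j : ℕ) : ℝ) + 1) * G.len f / N)}

/-- C4. Proof. Lemmas: finite intersections (also over a `Fintype`), the whole space (`0 = 0`), and: if `g`, `h : (ι → ℝ) → ℝ` are polynomial functions (`∃ p, ∀ z, g z = eval z p`; closed under `+`, `-`, `*`, constants, coordinates, finite sums,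
`if` with a condition not depending on `z`) then `{z | g z = h z}` and `{z | g z ≤ h z}` are `SA`. -/
def StC4 : Prop := ∀ (G : MetricGraph) (α : G.V → ℝ) (κ : ℝ) (N : ℕ) (e : G.E) (p r : ℝ), SA (Zs G α κ N e p r)

/-- The points of `Hot` with positive value, normalised. -/
def Hp (G : MetricGraph) (α : G.V → ℝ) (κ : ℝ) (e : G.E) : Set ℝ :=
  {x | x ∈ Ioo (0 : ℝ) (G.len e) ∧ ∃ A B W, Sol G α κ A B W ∧ A e = Real.cos (κ * x) ∧
    B e = Real.sin (κ * x) ∧ ∀ y, fn G κ A B W y ≤ 1}

/-- The content of C5. -/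
def C5 : Prop := ∀ (G : MetricGraph) (α : G.V → ℝ) (κ : ℝ) (e : G.E), 0 < κ →
  Hot G α (κ ^ 2) e = Hp G α κ e ∨ Hot G α (κ ^ 2) e = Ioo 0 (G.len e)

/-- C5. Proof. Let `F = fn G κ A B W` (C2) attain its maximum `m` at the interior point `x` of `e`. The derivative vanishes: `A e sin κx = B e cos κx`, so `A e = m cos κx`, `B e = m sin κx`, `F = m cos κ(y - x)` on `e`. `m < 0` is impossible (`F > m` near `x`). If `m = 0` for some such `F` and
`x`, `F = 0` on `e` and `F ≤ 0`, so every point of `e` is in `Hot`. Otherwise `m > 0` always, and `A / m`, `B / m`, `W / m` show `x ∈ Hp`. Conversely for `x ∈ Hp` the function `fn G κ A B W` has the value `1` at `x`. -/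
def StC5 : Prop := StC2 → C5

/-- The content of C6. -/
def C6 : Prop := ∀ (G : MetricGraph) (α : G.V → ℝ) (κ : ℝ) (e : G.E), 0 < κ →
  (Hp G α κ e).Infinite → HasInt (Hp G α κ e)

/-- C6. Proof. Let `N ≥ 1` with `κ len f / N < π / 2` for all edges `f`, `ℓ = len e`. `(0, ℓ)` is covered by the `N` intervals `[jℓ/N, (j+1)ℓ/N]`, so for one of them, `[p, q]`, `Hp ∩ [p, q]` is infinite. `r = sin κ(q - p)`. For `x ∈ Hp ∩ [p, q]` put
`s = sin κ(x - p)`, `c = cos κ(x - p)`: then `(s, c, A, B, W)` is in `Zs G α κ N e p r` (`κ(x - p) ∈ [0, κ(q - p)] ⊆ [0, π/2]`; C3 on the intervals `[j len f / N, (j+1) len f / N]`, the values at `0` and `len f` are `W (src f)` and `W (tgt f)`). `x ↦ s` is injective on `[p, q]`, so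
the image `Σ` of `Zs` under the coordinate `s` is infinite, so (PB, C4) it contains `(a, b)`, and `Σ ⊆ [0, r]` gives `0 ≤ a`, `b ≤ r`. Let `x` be between `p + arcsin a / κ` and `p + arcsin b / κ`: `s = sin κ(x - p) ∈ (a, b)`, `x ∈ (p, q)`, take `(s, c, A, B, W) ∈ Zs`; `c ≥ 0`, `c² + s² = 1`
give `c = cos κ(x - p)`, so `A e = cos κx`, `B e = sin κx`, and C3 shows that `fn ≤ 1`. So `x ∈ Hp`. -/
def StC6 : Prop := PB → StC3 → StC4 → C6

/-- C7: strong maximum principle. Proof. (i) ODE on an edge, `μ = -κ²`: `f x = f 0 cosh κx + (g 0 / κ) sinh κx`, `g x = κ (f 0) sinh κx + g 0 cosh κx` (model: `ode_neg` in `HotSpots.lean`); if `f` and `g` vanish at one point of `[0, ℓ]` then `f 0 = g 0 = 0`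
(`cosh² - sinh² = 1`), so `f = 0`. (ii) If `H` is zero at an interior point of `e` the derivative is zero there (minimum), so `H = 0` on `e`, in particular at its end points. (iii) If `H` is zero at a vertex `v`, all derivatives at `v` into the edges are `≥ 0`
and their sum is `α v * H v = 0`, so they are zero and `H = 0` on all edges at `v`. (iv) `G` is connected (`Relation.EqvGen`: induction), so `H = 0` at all vertices and on all edges. -/
def StC7 : Prop := ∀ (G : MetricGraph) (α : G.V → ℝ) (κ : ℝ), G.Connected → 0 < κ →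
  ∀ H ∈ G.eigenspace α (-κ ^ 2), (∀ y, 0 ≤ H y) → (∃ y, H y = 0) → H = 0

/-- The content of C8. -/
def C8 : Prop := ∀ (G : MetricGraph) (α : G.V → ℝ) (κ : ℝ), G.Connected → 0 < κ →
  ∀ H₁ ∈ G.eigenspace α (-κ ^ 2), ∀ H₂ ∈ G.eigenspace α (-κ ^ 2), (∀ y, 0 < H₁ y) → (∀ y, 0 < H₂ y) →
    ∃ t : ℝ, H₁ = t • H₂

/-- C8: positive functions of an eigenspace are proportional. Proof. `H₁ / H₂` has a minimum `t > 0` (restrictions to the closed edges are continuous, `onEdge`; finitely many edges and vertices; every point of `G.Pt` is a vertex or on an edge; a vertex without edges is also a point). `H₁ - t H₂ ≥ 0` has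
a zero, so it is `0` by C7. -/
def StC8 : Prop := StC7 → C8

/-- C9: negative eigenvalues. Proof. Let `F` attain its maximum `m` at the interior point `x` of `e`. On `e`: `F y = m cosh κ(y - x)` (ODE as in C7, derivative zero at `x`). `m > 0` is impossible (`F > m` near `x`). If `m = 0` for some `F`, `F = 0` on `e` and `F ≤ 0`, so `Hot` is all of
`(0, len e)`. Otherwise take two points `x₁ ≠ x₂` of `Hot` with `F₁`, `F₂`, `m₁, m₂ < 0`, so `-F₁, -F₂ > 0`; C8: `F₁ = t F₂`; at `x₁` and `x₂`: `m₁ = t m₂ C`, `m₁ C = t m₂`, `C = cosh κ(x₁ - x₂) > 1`, contradiction. -/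
def StC9 : Prop := C8 → ∀ (G : MetricGraph) (α : G.V → ℝ) (κ : ℝ) (e : G.E), G.Connected → 0 < κ →
  (Hot G α (-κ ^ 2) e).Infinite → HasInt (Hot G α (-κ ^ 2) e)

/-- C10: eigenvalue zero. Proof. `F` is affine on `e` (`g' = 0`, `f' = g`); an interior maximum gives slope zero, so every interior point of `e` is a maximum. -/
def StC10 : Prop := ∀ (G : MetricGraph) (α : G.V → ℝ) (e : G.E),
  (Hot G α 0 e).Nonempty → HasInt (Hot G α 0 e)

/-- All eigenvalues together. -/
def CA : Prop := ∀ (G : MetricGraph) (α : G.V → ℝ) (μ : ℝ) (e : G.E), G.Connected →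
  (Hot G α μ e).Infinite → HasInt (Hot G α μ e)

/-- The final theorem. -/
def Final : Prop := ∀ (G : MetricGraph) (α : G.V → ℝ), G.Connected →
  (G.hotSpots α).Finite ∨ (¬ (G.hotSpots α).Countable ∧
    ∃ (e : G.E) (a b : ℝ), 0 ≤ a ∧ a < b ∧ b ≤ G.len e ∧
      ∀ (x : ℝ) (h : x ∈ Ioo (0 : ℝ) (G.len e)), a < x → x < b → Sum.inr ⟨e, ⟨x, h⟩⟩ ∈ G.hotSpots α)

/-- FIN. Proof. If `IsSecond μ` and `IsSecond μ'` then `μ = μ'` (for `μ < μ'` the span up to `μ` is contained in the span below `μ'`; model: `second_iff` in `HotSpots.lean`). If there is no second eigenvalue the set is empty. The vertices are finite in number; an interior point of `e`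
in `hotSpots` has its coordinate in `Hot G α μ e` (for a minimum take `-F`), and conversely. So if `hotSpots` is infinite, some `Hot G α μ e` is infinite (finitely many edges), so it contains an interval. -/
def StFin : Prop := CA → Final

end Pool.Agent.Helper87.HQ
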